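import Pool.Agent.H145.Euc.Q14

/-!
The class of Mandel oriented matroids is not closed under duality.
-/

namespace Pool.Agent.Results.MP_621c18_co.MandelDualityFails

open Pool.Agent.H145.Euc Chirotope

/-- There are dual oriented matroids `M` (rank `8 + 2 = 10`) and `M'` (rank `2 + 2 = 4`) on 14
elements, both uniform, such that `M` is Mandel and `M'` is not Mandel. -/
theorem result : ∃ (M : Chirotope (Fin 14) 8) (M' : Chirotope (Fin 14) 2),
    M.Uniform ∧ M'.Uniform ∧ M.IsDual M' ∧ M.Mandel ∧ ¬ M'.Mandel :=
  mandel_not_dual (by norm_num) (by norm_num) Q14.cert 0 Q14.adj_ok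

end Pool.Agent.Results.MP_621c18_co.MandelDualityFails
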